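import Pool.Agent.Lib.MP_9c903d_ag.UB.Defs

/-!
# UBC-Exp: a group of elements exp(x), x in a nilpotent Lie algebra, has at most its class
-/

namespace Pool.Agent.MP_9c903d.UB

open FreeLieAlgebra

attribute [local instance 100] LieRing.ofAssociativeRing

section
variable {A : Type*} [Ring A] [Algebra ℂ A]

private theorem expN_exp {a : A} {n : ℕ} (ha : a ^ n = 0) :
    letI : Module ℚ A := Module.compHom A (algebraMap ℚ ℂ)
    expN n a = IsNilpotent.exp a := by
  let _ : Module ℚ A := Module.compHom A (algebraMap ℚ ℂ)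
  show expN n a = IsNilpotent.exp a
  rw [IsNilpotent.exp_eq_sum ha, expN]
  refine Finset.sum_congr rfl fun i _ => ?_
  show _ = (algebraMap ℚ ℂ ((i.factorial : ℚ)⁻¹)) • a ^ i
  rw [map_inv₀, map_natCast]

private theorem expN_add {a b : A} (h : Commute a b) {n m k : ℕ} (ha : a ^ n = 0) (hb : b ^ m = 0)
    (hk : (a + b) ^ k = 0) : expN k (a + b) = expN n a * expN m b := by
  let _ : Module ℚ A := Module.compHom A (algebraMap ℚ ℂ)
  have e1 := expN_exp ha
  have e2 := expN_exp hb
  have e3 := expN_exp hk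
  have e4 := IsNilpotent.exp_add_of_commute h ⟨n, ha⟩ ⟨m, hb⟩
  exact e3.trans (e4.trans (by rw [e1, e2]))

private theorem expN_neg {a : A} {n : ℕ} (ha : a ^ n = 0) : expN n a * expN n (-a) = 1 := by
  have hb : (-a) ^ n = 0 := by rw [neg_pow, ha, mul_zero]
  rw [← expN_add (k := 1) (Commute.neg_right rfl) ha hb (by rw [pow_one, add_neg_cancel])]
  simp [expN]

/-- `D y = x y - y x` -/
private noncomputable def Dx (x : A) : Module.End ℂ A := LinearMap.mulLeft ℂ x + LinearMap.mulRight ℂ (-x)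

private theorem Dx_apply (x y : A) : Dx x y = x * y - y * x := by
  simp [Dx, sub_eq_add_neg]

private theorem Dx_pow {x : A} {n : ℕ} (hx : x ^ n = 0) : (Dx x) ^ (2 * n) = 0 := by
  have hy : (-x) ^ n = 0 := by rw [neg_pow, hx, mul_zero]
  refine Commute.add_pow_eq_zero_of_add_le_succ_of_pow_eq_zero (m := n) (n := n)
    (LinearMap.commute_mulLeft_right (R := ℂ) x (-x)) ?_ ?_ (by omega)
  · rw [LinearMap.pow_mulLeft, hx]
    ext y
    simp
  · rw [LinearMap.pow_mulRight, hy]
    ext y
    simp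

private theorem conj_eq {x : A} {n : ℕ} (hx : x ^ n = 0) (y : A) :
    expN n x * y * expN n (-x) = expN (2 * n) (Dx x) y := by
  have hy : (-x) ^ n = 0 := by rw [neg_pow, hx, mul_zero]
  have h1 : (LinearMap.mulLeft ℂ x) ^ n = 0 := by
    rw [LinearMap.pow_mulLeft, hx]
    ext y
    simp
  have h2 : (LinearMap.mulRight ℂ (-x)) ^ n = 0 := by
    rw [LinearMap.pow_mulRight, hy]
    ext y
    simp
  have h3 := expN_add (k := 2 * n) (LinearMap.commute_mulLeft_right (R := ℂ) x (-x)) h1 h2 (Dx_pow hx)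
  have h4 : expN n (LinearMap.mulLeft ℂ x) = LinearMap.mulLeft ℂ (expN n x) := by
    ext z
    simp only [expN, LinearMap.pow_mulLeft, LinearMap.sum_apply, LinearMap.smul_apply, LinearMap.mulLeft_apply,
      Finset.sum_mul, smul_mul_assoc]
  have h5 : expN n (LinearMap.mulRight ℂ (-x)) = LinearMap.mulRight ℂ (expN n (-x)) := by
    ext z
    simp only [expN, LinearMap.pow_mulRight, LinearMap.sum_apply, LinearMap.smul_apply, LinearMap.mulRight_apply,
      Finset.mul_sum, mul_smul_comm]
  rw [h4, h5] at h3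
  have h6 : expN (2 * n) (Dx x) y = expN (2 * n) (LinearMap.mulLeft ℂ x + LinearMap.mulRight ℂ (-x)) y := rfl
  rw [h6, h3]
  simp [mul_assoc]

end

theorem class_le (c : ℕ) : ∀ {R : Type} [Ring R] [Algebra ℂ R] (N : LieSubalgebra ℂ R) {G : Type*}
    [Group G] (ρ : G →* Rˣ) (n : ℕ)
    (_ : ∀ g, ∃ x ∈ N, x ^ n = 0 ∧ ((ρ g : Rˣ) : R) = expN n x)
    (_ : LieModule.lowerCentralSeries ℂ N N c = ⊥),
    ∀ g ∈ (⊤ : Subgroup G).lowerCentralSeries c, ρ g = 1 := by
  induction c with
  | zero =>
    intro R _ _ N G _ ρ n hρ hN g _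
    obtain ⟨x, hx, hxn, hg⟩ := hρ g
    have h0 : x = 0 := by
      have h1 : (⟨x, hx⟩ : N) ∈ (LieModule.lowerCentralSeries ℂ N N 0) := by
        rw [LieModule.lowerCentralSeries_zero]
        exact LieSubmodule.mem_top _
      rw [hN, LieSubmodule.mem_bot] at h1
      exact congrArg Subtype.val h1
    rw [h0] at hxn hg
    rcases n with _ | n
    · rw [pow_zero] at hxn
      have : Subsingleton R := subsingleton_of_zero_eq_one hxn.symm
      exact Units.ext (Subsingleton.elim _ _)
    · apply Units.ext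
      rw [hg, expN, Finset.sum_range_succ']
      simp
  | succ c ih =>
    intro R _ _ N G _ ρ n hρ hN
    -- the inverse
    have hinv : ∀ g, ∀ x ∈ N, x ^ n = 0 → ((ρ g : Rˣ) : R) = expN n x → (((ρ g)⁻¹ : Rˣ) : R) = expN n (-x) := by
      intro g x _ hxn hg
      have h1 := expN_neg hxn
      rw [← hg] at h1
      calc (((ρ g)⁻¹ : Rˣ) : R) = (((ρ g)⁻¹ : Rˣ) : R) * (((ρ g : Rˣ) : R) * expN n (-x)) := by rw [h1, mul_one]
        _ = expN n (-x) := by rw [← mul_assoc, Units.inv_mul, one_mul]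
    have hpow : ∀ (x : N) (i : ℕ) (y : N), ((((LieAlgebra.ad ℂ N x) ^ i) y : N) : R) = ((Dx (x : R)) ^ i) (y : R) := by
      intro x i
      induction i with
      | zero => intro y; simp
      | succ i hi =>
        intro y
        rw [pow_succ, pow_succ, Module.End.mul_apply, Module.End.mul_apply, hi, Dx_apply]
        rfl
    have hexp : ∀ (x : N) (k : ℕ) (y : N),
        ((expN k (LieAlgebra.ad ℂ N x) y : N) : R) = expN k (Dx (x : R)) (y : R) := by
      intro x k y
      simp only [expN, LinearMap.sum_apply, LinearMap.smul_apply]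
      rw [← LieSubalgebra.coe_incl, map_sum]
      refine Finset.sum_congr rfl fun i _ => ?_
      rw [map_smul, LieSubalgebra.coe_incl, hpow]
    have hadn : ∀ (x : N), (x : R) ^ n = 0 → (LieAlgebra.ad ℂ N x) ^ (2 * n) = 0 := by
      intro x hx
      ext y
      rw [hpow, Dx_pow hx]
      rfl
    -- conjugation by `ρ g`
    have hconj : ∀ g, ∃ x : N, (x : R) ^ n = 0 ∧ ((ρ g : Rˣ) : R) = expN n (x : R) ∧
        ∀ y : N, ((ρ g : Rˣ) : R) * (y : R) * (((ρ g)⁻¹ : Rˣ) : R) =
          ((expN (2 * n) (LieAlgebra.ad ℂ N x) y : N) : R) := by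
      intro g
      obtain ⟨x, hx, hxn, hg⟩ := hρ g
      refine ⟨⟨x, hx⟩, hxn, hg, fun y => ?_⟩
      rw [hexp, hinv g x hx hxn hg, hg]
      exact conj_eq hxn _
    have hmem : ∀ g, ∀ y : N, ((ρ g : Rˣ) : R) * (y : R) * (((ρ g)⁻¹ : Rˣ) : R) ∈ N := by
      intro g y
      obtain ⟨x, -, -, h⟩ := hconj g
      rw [h]
      exact Subtype.property _
    let f : G →* Module.End ℂ N :=
      { toFun := fun g =>
          { toFun := fun y => ⟨((ρ g : Rˣ) : R) * (y : R) * (((ρ g)⁻¹ : Rˣ) : R), hmem g y⟩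
            map_add' := fun y z => by
              apply Subtype.ext
              show _ * (((y + z : N)) : R) * _ = _ * (y : R) * _ + _ * (z : R) * _
              have e : (((y + z : N)) : R) = (y : R) + (z : R) := rfl
              rw [e, mul_add, add_mul]
            map_smul' := fun a y => by
              apply Subtype.ext
              show _ * (((a • y : N)) : R) * _ = a • (_ * (y : R) * _)
              have e : (((a • y : N)) : R) = a • (y : R) := rfl
              rw [e, mul_smul_comm, smul_mul_assoc] }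
        map_one' := by
          ext y
          show ((ρ 1 : Rˣ) : R) * (y : R) * (((ρ 1)⁻¹ : Rˣ) : R) = (y : R)
          simp
        map_mul' := fun g h => by
          ext y
          show ((ρ (g * h) : Rˣ) : R) * (y : R) * (((ρ (g * h))⁻¹ : Rˣ) : R) =
            ((ρ g : Rˣ) : R) * (((ρ h : Rˣ) : R) * (y : R) * (((ρ h)⁻¹ : Rˣ) : R)) * (((ρ g)⁻¹ : Rˣ) : R)
          rw [map_mul, mul_inv_rev, Units.val_mul, Units.val_mul]
          simp only [mul_assoc] }
    have hf : ∀ g (y : N), ((f g y : N) : R) = ((ρ g : Rˣ) : R) * (y : R) * (((ρ g)⁻¹ : Rˣ) : R) := fun g y => rfl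
    have hlcs : LieModule.lowerCentralSeries ℂ (LieAlgebra.ad ℂ N).range (LieAlgebra.ad ℂ N).range c = ⊥ := by
      rw [← LieIdeal.lowerCentralSeries_map_eq c (LieAlgebra.ad ℂ N).surjective_rangeRestrict,
        LieIdeal.map_eq_bot_iff]
      intro x hx
      rw [LieHom.mem_ker]
      apply Subtype.ext
      show LieAlgebra.ad ℂ N x = 0
      ext y
      have h1 : ⁅y, x⁆ ∈ LieModule.lowerCentralSeries ℂ N N (c + 1) := by
        rw [LieModule.lowerCentralSeries_succ]
        exact LieSubmodule.lie_mem_lie (LieSubmodule.mem_top _) hx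
      rw [hN, LieSubmodule.mem_bot] at h1
      have h2 : ⁅x, y⁆ = 0 := by rw [← lie_skew, h1, neg_zero]
      show ((⁅x, y⁆ : N) : R) = 0
      rw [h2]
      rfl
    have hih := ih (R := Module.End ℂ N) (LieAlgebra.ad ℂ N).range f.toHomUnits (2 * n) (by
      intro g
      obtain ⟨x, hxn, hg, h⟩ := hconj g
      refine ⟨LieAlgebra.ad ℂ N x, ⟨x, rfl⟩, hadn x hxn, ?_⟩
      rw [MonoidHom.coe_toHomUnits]
      ext y
      rw [hf, h]) hlcs
    have hcomm : ∀ g ∈ (⊤ : Subgroup G).lowerCentralSeries c, ∀ y : N,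
        ((ρ g : Rˣ) : R) * (y : R) = (y : R) * ((ρ g : Rˣ) : R) := by
      intro g hg y
      have h1 := congrArg (fun u : (Module.End ℂ N)ˣ => (((u : Module.End ℂ N) y : N) : R)) (hih g hg)
      simp only [MonoidHom.coe_toHomUnits, Units.val_one, Module.End.one_apply] at h1
      rw [hf] at h1
      calc ((ρ g : Rˣ) : R) * (y : R) = (((ρ g : Rˣ) : R) * (y : R) * (((ρ g)⁻¹ : Rˣ) : R)) * ((ρ g : Rˣ) : R) := by
            rw [mul_assoc, mul_assoc, Units.inv_mul, mul_one]
        _ = _ := by rw [h1]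
    have hle : (⊤ : Subgroup G).lowerCentralSeries (c + 1) ≤ ρ.ker := by
      rw [Subgroup.lowerCentralSeries_succ, Subgroup.commutator_le]
      intro g hg h _
      rw [MonoidHom.mem_ker, map_commutatorElement, commutatorElement_eq_one_iff_mul_comm]
      apply Units.ext
      rw [Units.val_mul, Units.val_mul]
      obtain ⟨x, hx, hxn, hh⟩ := hρ h
      rw [hh, expN]
      have h1 : Commute ((ρ g : Rˣ) : R) x := hcomm g hg ⟨x, hx⟩
      refine Commute.sum_right _ _ _ fun i _ => ?_
      exact (h1.pow_right i).smul_right _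
    intro g hg
    exact hle hg

end Pool.Agent.MP_9c903d.UB
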