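import Mathlib

/-!
# Presentations of Lie algebras by homogeneous relations (Morgan)
-/

namespace Pool.Agent.MP_9c903d.UB

open FreeLieAlgebra

/-- The free Lie algebra over `ℂ` on `b` generators `x_i = of ℂ i`. -/
abbrev FL (b : ℕ) : Type := FreeLieAlgebra ℂ (Fin b)

/-- The weight of a word in the generators, `x_i` having weight `d i`. -/
def wt {b : ℕ} (d : Fin b → ℕ) (l : List (Fin b)) : ℕ := (l.map d).sum

/-- The right-normed bracket `[x_{i_1}, [x_{i_2}, …, x_{i_k}]]`. -/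
noncomputable def rn {b : ℕ} : List (Fin b) → FL b
  | [] => 0
  | [i] => of ℂ i
  | i :: j :: l => ⁅of ℂ i, rn (j :: l)⁆

/-- The homogeneous elements of weight `w`: the span of the right-normed brackets (hence of all
brackets) of weight `w`. -/
noncomputable def Wt {b : ℕ} (d : Fin b → ℕ) (w : ℕ) : Submodule ℂ (FL b) :=
  Submodule.span ℂ {x | ∃ l, wt d l = w ∧ x = rn l}

/-- `L` has a presentation with `b` generators of weights `1` or `2` and relations which are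
homogeneous of weights `2`, `3` or `4`. -/
def MorganPresented (b : ℕ) (L : Type*) [LieRing L] [LieAlgebra ℂ L] : Prop :=
  ∃ d : Fin b → ℕ, (∀ i, d i = 1 ∨ d i = 2) ∧ ∃ φ : FL b →ₗ⁅ℂ⁆ L, Function.Surjective φ ∧
    ∃ S : Set (FL b), (∀ s ∈ S, ∃ w, 2 ≤ w ∧ w ≤ 4 ∧ s ∈ Wt d w) ∧
      φ.ker = LieSubmodule.lieSpan ℂ (FL b) S

/-- `exp x = ∑_{i<n} x^i / i!` for an element `x` with `x^n = 0`. -/
noncomputable def expN {R : Type*} [Ring R] [Algebra ℂ R] (n : ℕ) (x : R) : R :=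
  ∑ i ∈ Finset.range n, ((i.factorial : ℂ)⁻¹) • x ^ i

/-- iterated bracket `[x_{i_1}, [x_{i_2}, …, [x_{i_k}, s]]]` -/
noncomputable def app {b : ℕ} (u : List (Fin b)) (s : FL b) : FL b :=
  u.foldr (fun i x => ⁅(of ℂ i : FL b), x⁆) s

/-- words of weight 2, 3, 4 -/
abbrev Jw {b : ℕ} (d : Fin b → ℕ) : Type := {l : List (Fin b) // 2 ≤ wt d l ∧ wt d l ≤ 4}

/-- the relations with coefficients `a` -/
noncomputable def rel {b : ℕ} {d : Fin b → ℕ} [Fintype (Jw d)] (a : Jw d × Jw d → ℂ) (l : Jw d) :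
    FL b :=
  ∑ l' : Jw d, if wt d l'.1 = wt d l.1 then a (l, l') • rn l'.1 else 0

/-- the Lie ideal generated by a family -/
noncomputable abbrev idl {b : ℕ} {J : Type*} (r : J → FL b) : LieSubmodule ℂ (FL b) (FL b) :=
  LieSubmodule.lieSpan ℂ (FL b) (Set.range r)

/-- Zariski open subsets of `ℂ^σ` -/
def ZOpen {σ : Type*} (U : Set (σ → ℂ)) : Prop :=
  ∃ I : Set (MvPolynomial σ ℂ), ∀ a, a ∉ U ↔ ∀ p ∈ I, MvPolynomial.eval a p = 0

end Pool.Agent.MP_9c903d.UB
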