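import Pool.Agent.Lib.MP_9c903d_ag.UB.Defs

/-!
# UBC-Noe: ascending chains of Zariski open sets stabilise
-/

namespace Pool.Agent.MP_9c903d.UB

open FreeLieAlgebra

/-- the ideal of the complement of a set -/
private noncomputable def Noe_J {σ : Type*} (V : Set (σ → ℂ)) : Ideal (MvPolynomial σ ℂ) where
  carrier := {p | ∀ a, a ∉ V → MvPolynomial.eval a p = 0}
  add_mem' := by
    intro p q hp hq a ha
    rw [map_add, hp a ha, hq a ha, add_zero]
  zero_mem' := by
    intro a _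
    rw [map_zero]
  smul_mem' := by
    intro c p hp a ha
    rw [smul_eq_mul, map_mul, hp a ha, mul_zero]

private theorem Noe_J_mono {σ : Type*} {V W : Set (σ → ℂ)} (h : V ⊆ W) : Noe_J V ≤ Noe_J W := by
  intro p hp a ha
  exact hp a fun hV => ha (h hV)

theorem zopen_chain {σ : Type*} [Finite σ] (U : ℕ → Set (σ → ℂ)) (hU : ∀ n, ZOpen (U n))
    (hm : Monotone U) : ∃ N, ∀ n, N ≤ n → U n = U N := by
  obtain ⟨N, hN⟩ := monotone_stabilizes_iff_noetherian.2
    (inferInstance : IsNoetherian (MvPolynomial σ ℂ) (MvPolynomial σ ℂ))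
    (⟨fun n => Noe_J (U n), fun m n h => Noe_J_mono (hm h)⟩ : ℕ →o Submodule (MvPolynomial σ ℂ) (MvPolynomial σ ℂ))
  refine ⟨N, fun n hn => Set.Subset.antisymm ?_ (hm hn)⟩
  intro a ha
  by_contra hna
  have h1 : Noe_J (U N) = Noe_J (U n) := hN n hn
  obtain ⟨I, hI⟩ := hU n
  refine absurd ((hI a).2 fun p hp => ?_) (not_not.2 ha)
  have h2 : p ∈ Noe_J (U n) := fun b hb => (hI b).1 hb p hp
  rw [← h1] at h2
  exact h2 a hna

end Pool.Agent.MP_9c903d.UB
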