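import Pool.Agent.Lib.MP_9c903d_ag.UB.Defs

/-!
# UBC-Opn: Zariski open conditions
-/

namespace Pool.Agent.MP_9c903d.UB

open FreeLieAlgebra

theorem zopen_inter {σ : Type*} {U V : Set (σ → ℂ)} (hU : ZOpen U) (hV : ZOpen V) :
    ZOpen (U ∩ V) := by
  obtain ⟨I, hI⟩ := hU
  obtain ⟨J, hJ⟩ := hV
  refine ⟨{r | ∃ p ∈ I, ∃ q ∈ J, r = p * q}, fun a => ⟨?_, ?_⟩⟩
  · rintro h r ⟨p, hp, q, hq, rfl⟩
    rw [map_mul]
    by_cases ha : a ∈ U
    · have hv : a ∉ V := fun hv => h ⟨ha, hv⟩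
      rw [(hJ a).1 hv q hq, mul_zero]
    · rw [(hI a).1 ha p hp, zero_mul]
  · rintro h ⟨hu, hv⟩
    have h1 : ¬ ∀ p ∈ I, MvPolynomial.eval a p = 0 := fun h' => (hI a).2 h' hu
    have h2 : ¬ ∀ p ∈ J, MvPolynomial.eval a p = 0 := fun h' => (hJ a).2 h' hv
    push Not at h1 h2
    obtain ⟨p, hp, hp0⟩ := h1
    obtain ⟨q, hq, hq0⟩ := h2
    have h3 := h (p * q) ⟨p, hp, q, hq, rfl⟩
    rw [map_mul] at h3
    exact mul_ne_zero hp0 hq0 h3

private theorem Opn_iff {K : Type*} {E : Type*} [AddCommGroup E] [Module ℂ E] {m : ℕ}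
    (b : Module.Basis (Fin m) ℂ E) (g : K → E) :
    Submodule.span ℂ (Set.range g) = ⊤ ↔ ∃ k : Fin m → K, b.det (fun j => g (k j)) ≠ 0 := by
  constructor
  · intro h
    obtain ⟨t, hts, htspan, hli⟩ := exists_linearIndependent ℂ (Set.range g)
    rw [h] at htspan
    have hsp : ⊤ ≤ Submodule.span ℂ (Set.range ((↑) : t → E)) := by
      rw [Subtype.range_coe, htspan]
    let b' : Module.Basis t ℂ E := Module.Basis.mk hli hsp
    let e : Fin m ≃ t := b.indexEquiv b'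
    have hk : ∀ x : t, ∃ k : K, g k = x := fun x => hts x.2
    choose k hk using hk
    refine ⟨fun j => k (e j), ?_⟩
    have hv : (fun j => g (k (e j))) = fun j => ((e j : t) : E) := funext fun j => hk (e j)
    rw [hv]
    refine ((b.is_basis_iff_det).1 ⟨hli.comp e e.injective, ?_⟩).ne_zero
    have hr : Set.range (Subtype.val ∘ e) = t := by
      ext x
      constructor
      · rintro ⟨j, rfl⟩
        exact (e j).2
      · intro hx
        exact ⟨e.symm ⟨x, hx⟩, by simp⟩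
    rw [hr, htspan]
  · rintro ⟨k, hk⟩
    have h1 := ((b.is_basis_iff_det (v := fun j => g (k j))).2 (isUnit_iff_ne_zero.2 hk)).2
    rw [eq_top_iff, ← h1]
    refine Submodule.span_mono ?_
    rintro x ⟨j, rfl⟩
    exact ⟨k j, rfl⟩

theorem zopen_span {σ K : Type*} [Fintype σ] [Finite K] {E : Type*} [AddCommGroup E] [Module ℂ E]
    [FiniteDimensional ℂ E] (f : (σ → ℂ) → K → E)
    (hf : ∀ k, ∃ c : σ → E, ∀ a, f a k = ∑ s, a s • c s) :
    ZOpen {a | Submodule.span ℂ (Set.range (f a)) = ⊤} := by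
  classical
  obtain ⟨m, ⟨b⟩⟩ : ∃ m : ℕ, Nonempty (Module.Basis (Fin m) ℂ E) := ⟨_, ⟨Module.finBasis ℂ E⟩⟩
  choose c hc using hf
  let P : (Fin m → K) → Matrix (Fin m) (Fin m) (MvPolynomial σ ℂ) := fun k =>
    Matrix.of fun i j => ∑ s, MvPolynomial.C (b.repr (c (k j) s) i) * MvPolynomial.X s
  have hP : ∀ (k : Fin m → K) (a : σ → ℂ),
      MvPolynomial.eval a (P k).det = b.det (fun j => f a (k j)) := by
    intro k a
    rw [RingHom.map_det, Module.Basis.det_apply]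
    congr 1
    ext i j
    simp only [P, RingHom.mapMatrix_apply, Matrix.map_apply, Matrix.of_apply, map_sum, map_mul,
      MvPolynomial.eval_C, MvPolynomial.eval_X, Module.Basis.toMatrix_apply, hc, map_smul,
      Finsupp.coe_finsetSum, Finset.sum_apply, Finsupp.smul_apply, smul_eq_mul]
    exact Finset.sum_congr rfl fun s _ => mul_comm _ _
  refine ⟨Set.range fun k => (P k).det, fun a => ?_⟩
  rw [Set.mem_ofPred_eq, Opn_iff b (f a)]
  push Not
  constructor
  · rintro h p ⟨k, rfl⟩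
    rw [hP]
    exact h k
  · intro h k
    rw [← hP]
    exact h _ ⟨k, rfl⟩

end Pool.Agent.MP_9c903d.UB
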