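import Pool.Agent.Lib.MP_9c903d_ag.UB.GrC
import Pool.Agent.Lib.MP_9c903d_ag.UB.Opn

/-!
# UBC-OpW: the set of relations which kill weight w is Zariski open
-/

namespace Pool.Agent.MP_9c903d.UB

open FreeLieAlgebra

/-- `app u` as a linear map -/
private noncomputable def appL {b : ℕ} (u : List (Fin b)) : FL b →ₗ[ℂ] FL b :=
  u.foldr (fun i T => ((LieAlgebra.ad ℂ (FL b) (of ℂ i)) : FL b →ₗ[ℂ] FL b) ∘ₗ T) LinearMap.id

private theorem appL_apply {b : ℕ} (u : List (Fin b)) (s : FL b) : appL u s = app u s := by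
  induction u with
  | nil => rfl
  | cons i u ih =>
    change ⁅(of ℂ i : FL b), appL u s⁆ = ⁅(of ℂ i : FL b), app u s⁆
    rw [ih]

private theorem OpW_rel_mem {b : ℕ} {d : Fin b → ℕ} [Fintype (Jw d)] (a : Jw d × Jw d → ℂ) (l : Jw d) :
    rel a l ∈ Wt d (wt d l.1) := by
  unfold rel
  refine Submodule.sum_mem _ fun l' _ => ?_
  split_ifs with h
  · exact Submodule.smul_mem _ _ (Submodule.subset_span ⟨l'.1, h, rfl⟩)
  · exact Submodule.zero_mem _

private theorem OpW_app_mem {b : ℕ} {d : Fin b → ℕ} {w : ℕ} {u : List (Fin b)} {l : Jw d}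
    (h : wt d u + wt d l.1 = w) {x : FL b} (hx : x ∈ Wt d (wt d l.1)) : app u x ∈ Wt d w := by
  rw [← h]
  exact app_mem d u _ x hx

/-- the index set -/
private abbrev KK {b : ℕ} (d : Fin b → ℕ) (w : ℕ) : Type :=
  {p : List (Fin b) × Jw d // wt d p.1 + wt d p.2.1 = w}

/-- the generators of weight `w` of the ideal -/
private noncomputable def gg {b : ℕ} {d : Fin b → ℕ} [Fintype (Jw d)] {w : ℕ} (a : Jw d × Jw d → ℂ) (k : KK d w) :
    Wt d w :=
  ⟨app k.1.1 (rel a k.1.2), OpW_app_mem k.2 (OpW_rel_mem a k.1.2)⟩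

open Classical in
private noncomputable def cc {b : ℕ} {d : Fin b → ℕ} {w : ℕ} (k : KK d w) (s : Jw d × Jw d) : Wt d w :=
  if h : s.1 = k.1.2 ∧ wt d s.2.1 = wt d k.1.2.1 then
    ⟨app k.1.1 (rn s.2.1), OpW_app_mem k.2 (Submodule.subset_span ⟨s.2.1, h.2, rfl⟩)⟩ else 0

open Classical in
private theorem cc_coe {b : ℕ} {d : Fin b → ℕ} {w : ℕ} (k : KK d w) (s : Jw d × Jw d) :
    ((cc k s : Wt d w) : FL b) =
      if s.1 = k.1.2 ∧ wt d s.2.1 = wt d k.1.2.1 then app k.1.1 (rn s.2.1) else 0 := by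
  unfold cc
  split_ifs <;> rfl

private theorem gg_lin {b : ℕ} {d : Fin b → ℕ} [Fintype (Jw d)] {w : ℕ} (k : KK d w) :
    ∃ c : Jw d × Jw d → Wt d w, ∀ a, gg a k = ∑ s, a s • c s := by
  classical
  refine ⟨cc k, ?_⟩
  intro a
  apply Subtype.ext
  have h1 : ((gg a k : Wt d w) : FL b) = ∑ l' : Jw d, if wt d l'.1 = wt d k.1.2.1 then
      a (k.1.2, l') • app k.1.1 (rn l'.1) else 0 := by
    change app k.1.1 (rel a k.1.2) = _
    rw [← appL_apply]
    unfold rel
    rw [map_sum]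
    refine Finset.sum_congr rfl fun l' _ => ?_
    split_ifs with h
    · rw [map_smul, appL_apply]
    · rw [map_zero]
  have h2 : ((∑ s, a s • cc k s : Wt d w) : FL b) = ∑ s : Jw d × Jw d, a s • (if s.1 = k.1.2 ∧
      wt d s.2.1 = wt d k.1.2.1 then app k.1.1 (rn s.2.1) else 0) := by
    rw [Submodule.coe_sum]
    refine Finset.sum_congr rfl fun s _ => ?_
    rw [Submodule.coe_smul, cc_coe]
  rw [h1, h2, Fintype.sum_prod_type]
  symm
  refine (Finset.sum_eq_single k.1.2 ?_ ?_).trans ?_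
  · intro s _ hs
    refine Finset.sum_eq_zero fun l' _ => ?_
    simp [hs]
  · intro h
    exact absurd (Finset.mem_univ _) h
  · refine Finset.sum_congr rfl fun l' _ => ?_
    simp

theorem zopen_kill {b : ℕ} (d : Fin b → ℕ) (hd : ∀ i, 1 ≤ d i) [Fintype (Jw d)] (w : ℕ) :
    ZOpen {a : Jw d × Jw d → ℂ | Wt d w ≤ (idl (rel a)).toSubmodule} := by
  classical
  have hfin1 : {l : List (Fin b) | wt d l ≤ w}.Finite := finite_words d hd w
  have hE : FiniteDimensional ℂ (Wt d w) := by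
    refine FiniteDimensional.span_of_finite ℂ ?_
    refine (hfin1.image rn).subset ?_
    rintro x ⟨l, hl, rfl⟩
    exact ⟨l, hl.le, rfl⟩
  have hK : Finite (KK d w) := by
    have h1 : ({u : List (Fin b) | wt d u ≤ w} ×ˢ (Set.univ : Set (Jw d))).Finite := hfin1.prod Set.finite_univ
    refine (h1.subset ?_).to_subtype
    intro p hp
    refine ⟨?_, Set.mem_univ _⟩
    have h2 : wt d p.1 + wt d p.2.1 = w := hp
    change wt d p.1 ≤ w
    omega
  have key := zopen_span (K := KK d w) (E := Wt d w) (fun a k => gg a k) gg_lin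
  have heq : {a : Jw d × Jw d → ℂ | Wt d w ≤ (idl (rel a)).toSubmodule} =
      {a : Jw d × Jw d → ℂ | Submodule.span ℂ (Set.range fun k : KK d w => gg a k) = ⊤} := by
    ext a
    have hmap : (Submodule.span ℂ (Set.range fun k : KK d w => gg a k)).map (Wt d w).subtype =
        Submodule.span ℂ {y | ∃ (u : List (Fin b)) (j : Jw d), wt d u + wt d j.1 = w ∧ y = app u (rel a j)} := by
      rw [Submodule.map_span]
      congr 1
      ext y
      constructor
      · rintro ⟨_, ⟨k, rfl⟩, rfl⟩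
        exact ⟨k.1.1, k.1.2, k.2, rfl⟩
      · rintro ⟨u, j, h, rfl⟩
        exact ⟨_, ⟨⟨(u, j), h⟩, rfl⟩, rfl⟩
    constructor
    · intro h
      have h' : Wt d w ≤ (idl (rel a)).toSubmodule := h
      change Submodule.span ℂ (Set.range fun k : KK d w => gg a k) = ⊤
      rw [eq_top_iff]
      intro x _
      have h1 := Wt_inf d (rel a) (fun j => wt d j.1) (fun j => OpW_rel_mem a j) w x.1 x.2 (h' x.2)
      rw [← hmap] at h1
      obtain ⟨y, hy, hyx⟩ := h1
      have h2 : y = x := Subtype.ext hyx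
      rw [← h2]
      exact hy
    · intro h
      have h' : Submodule.span ℂ (Set.range fun k : KK d w => gg a k) = ⊤ := h
      change Wt d w ≤ (idl (rel a)).toSubmodule
      intro x hx
      have h1 : x ∈ (Submodule.span ℂ (Set.range fun k : KK d w => gg a k)).map (Wt d w).subtype := by
        rw [h']
        exact ⟨⟨x, hx⟩, Submodule.mem_top, rfl⟩
      rw [hmap] at h1
      refine (Submodule.span_le.2 ?_) h1
      rintro _ ⟨u, j, -, rfl⟩
      rw [SetLike.mem_coe, idl_eq]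
      exact Submodule.subset_span ⟨(u, j), rfl⟩
  rw [heq]
  exact key

end Pool.Agent.MP_9c903d.UB
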