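import Pool.Agent.Lib.MP_9c903d_ag.UB.Par
import Pool.Agent.Lib.MP_9c903d_ag.UB.OpW
import Pool.Agent.Lib.MP_9c903d_ag.UB.Noe

/-!
# UBC-Fin: the uniform bound
-/

namespace Pool.Agent.MP_9c903d.UB

open FreeLieAlgebra

/-- two consecutive weights in an ideal give the next one -/
private theorem fin_step {b : ℕ} (d : Fin b → ℕ) (hd : ∀ i, d i = 1 ∨ d i = 2) (n : ℕ)
    (I : LieSubmodule ℂ (FL b) (FL b)) (h1 : Wt d (n + 1) ≤ I.toSubmodule)
    (h2 : Wt d (n + 2) ≤ I.toSubmodule) : Wt d (n + 3) ≤ I.toSubmodule := by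
  refine Submodule.span_le.2 ?_
  rintro x ⟨l, hl, rfl⟩
  cases l with
  | nil =>
    simp [wt] at hl
  | cons i l =>
    have hw : wt d (i :: l) = d i + wt d l := by simp [wt]
    have hne : l ≠ [] := by
      rintro rfl
      have h0 : wt d ([] : List (Fin b)) = 0 := rfl
      rw [hw, h0] at hl
      rcases hd i with h | h <;> omega
    rw [← lie_rn i l hne]
    have hmem : rn l ∈ I.toSubmodule := by
      rcases hd i with h | h
      · refine h2 (Submodule.subset_span ⟨l, ?_, rfl⟩)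
        omega
      · refine h1 (Submodule.subset_span ⟨l, ?_, rfl⟩)
        omega
    exact I.lie_mem hmem

private theorem fin_one (b : ℕ) (d : Fin b → ℕ) (hd : ∀ i, d i = 1 ∨ d i = 2) : ∃ N : ℕ,
    ∀ (L : Type) [LieRing L] [LieAlgebra ℂ L] (φ : FL b →ₗ⁅ℂ⁆ L), Function.Surjective φ →
      ∀ S : Set (FL b), (∀ s ∈ S, ∃ w, 2 ≤ w ∧ w ≤ 4 ∧ s ∈ Wt d w) →
      φ.ker = LieSubmodule.lieSpan ℂ (FL b) S → LieRing.IsNilpotent L →
      LieModule.lowerCentralSeries ℂ L L N = ⊥ := by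
  classical
  have hd1 : ∀ i, 1 ≤ d i := fun i => by rcases hd i with h | h <;> omega
  have hd2 : ∀ i, d i ≤ 2 := fun i => by rcases hd i with h | h <;> omega
  have hset : {l : List (Fin b) | 2 ≤ wt d l ∧ wt d l ≤ 4}.Finite :=
    (finite_words d hd1 4).subset (fun l hl => hl.2)
  have hfin : Finite (Jw d) := hset.to_subtype
  have hft : Fintype (Jw d) := Fintype.ofFinite _
  obtain ⟨U, hU⟩ : ∃ U : ℕ → Set (Jw d × Jw d → ℂ), ∀ n, U n =
      {a | Wt d (n + 1) ≤ (idl (rel a)).toSubmodule} ∩ {a | Wt d (n + 2) ≤ (idl (rel a)).toSubmodule} :=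
    ⟨fun n => _, fun n => rfl⟩
  have hopen : ∀ n, ZOpen (U n) := fun n => by
    rw [hU]
    exact zopen_inter (zopen_kill d hd1 (n + 1)) (zopen_kill d hd1 (n + 2))
  have hmon : Monotone U := by
    refine monotone_nat_of_le_succ fun n => ?_
    intro a ha
    rw [hU] at ha ⊢
    exact ⟨ha.2, fin_step d hd n _ ha.1 ha.2⟩
  obtain ⟨N, hN⟩ := zopen_chain U hopen hmon
  refine ⟨N, ?_⟩
  intro L _ _ φ hφ S hS hker hnil
  obtain ⟨a, ha⟩ := exists_par d hd1 S hS
  rw [ha] at hker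
  rw [LieRing.IsNilpotent, LieModule.isNilpotent_iff ℂ] at hnil
  obtain ⟨c, hc⟩ := hnil
  rw [← LieIdeal.lowerCentralSeries_map_eq c hφ, LieIdeal.map_eq_bot_iff] at hc
  have hc' : (LieModule.lowerCentralSeries ℂ (FL b) (FL b) c).toSubmodule ≤ (idl (rel a)).toSubmodule := by
    intro x hx
    have h1 : x ∈ φ.ker := hc hx
    rw [hker] at h1
    exact h1
  have haU : a ∈ U (max N (2 * c)) := by
    rw [hU]
    have h1 : 2 * c ≤ max N (2 * c) := le_max_right _ _
    exact ⟨(Wt_le_lcs d hd2 c _ (by omega)).trans hc', (Wt_le_lcs d hd2 c _ (by omega)).trans hc'⟩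
  rw [hN _ (le_max_left _ _)] at haU
  have hall : ∀ w, N + 1 ≤ w → Wt d w ≤ (idl (rel a)).toSubmodule := by
    intro w hw
    have h1 : a ∈ U (w - 1) := by
      rw [hN _ (by omega)]
      exact haU
    rw [hU] at h1
    have h2 : Wt d (w - 1 + 1) ≤ (idl (rel a)).toSubmodule := h1.1
    have e : w - 1 + 1 = w := by omega
    rw [e] at h2
    exact h2
  have hlcs : LieModule.lowerCentralSeries ℂ (FL b) (FL b) N ≤ φ.ker := by
    intro x hx
    rw [hker]
    have h1 := lcs_le d hd1 N hx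
    have h2 : (⨆ w, ⨆ (_ : N + 1 ≤ w), Wt d w) ≤ (idl (rel a)).toSubmodule :=
      iSup_le fun w => iSup_le fun hw => hall w hw
    exact h2 h1
  rw [← LieIdeal.lowerCentralSeries_map_eq N hφ, LieIdeal.map_eq_bot_iff]
  exact hlcs

theorem uniform (b : ℕ) : ∃ C : ℕ, ∀ (L : Type) [LieRing L] [LieAlgebra ℂ L],
    MorganPresented b L → LieRing.IsNilpotent L → LieModule.lowerCentralSeries ℂ L L C = ⊥ := by
  classical
  have h1 : ∀ e : Fin b → Bool, ∃ N : ℕ, ∀ (L : Type) [LieRing L] [LieAlgebra ℂ L] (φ : FL b →ₗ⁅ℂ⁆ L),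
      Function.Surjective φ → ∀ S : Set (FL b),
      (∀ s ∈ S, ∃ w, 2 ≤ w ∧ w ≤ 4 ∧ s ∈ Wt (fun i => if e i then 2 else 1) w) →
      φ.ker = LieSubmodule.lieSpan ℂ (FL b) S → LieRing.IsNilpotent L →
      LieModule.lowerCentralSeries ℂ L L N = ⊥ := fun e =>
    fin_one b (fun i => if e i then 2 else 1) (fun i => by
      show (if e i then 2 else 1) = 1 ∨ (if e i then 2 else 1) = 2
      split_ifs <;> simp)
  choose N hN using h1
  refine ⟨Finset.univ.sup N, ?_⟩
  intro L _ _ hL hnil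
  obtain ⟨d, hd, φ, hφ, S, hS, hker⟩ := hL
  obtain ⟨e, he⟩ : ∃ e : Fin b → Bool, d = fun i => if e i then 2 else 1 := by
    refine ⟨fun i => decide (d i = 2), ?_⟩
    funext i
    rcases hd i with h | h <;> simp [h]
  rw [he] at hS
  have h2 := hN e L φ hφ S hS hker hnil
  have h3 := LieModule.antitone_lowerCentralSeries ℂ L L (Finset.le_sup (f := N) (Finset.mem_univ e))
  exact le_bot_iff.1 (h3.trans h2.le)

end Pool.Agent.MP_9c903d.UB
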