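import Pool.Agent.Lib.MP_9c903d_ag.UB.Defs

/-!
# UBC-GrA: the weight grading of the free Lie algebra, spanning statements
-/

namespace Pool.Agent.MP_9c903d.UB

open FreeLieAlgebra

theorem lie_rn {b : ℕ} (i : Fin b) (l : List (Fin b)) (hl : l ≠ []) :
    ⁅(of ℂ i : FL b), rn l⁆ = rn (i :: l) := by
  cases l with
  | nil => exact absurd rfl hl
  | cons j l => rw [rn]

/-- a Lie subalgebra of the free Lie algebra containing the generators is everything -/
theorem mem_of_gen {b : ℕ} (S : LieSubalgebra ℂ (FL b)) (hS : ∀ i, (of ℂ i : FL b) ∈ S)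
    (y : FL b) : y ∈ S := by
  have key : S.incl.comp (lift ℂ (fun i : Fin b => (⟨of ℂ i, hS i⟩ : S)))
      = (LieHom.id : FL b →ₗ⁅ℂ⁆ FL b) := by
    apply FreeLieAlgebra.hom_ext
    intro i
    simp
  have h2 := LieHom.congr_fun key y
  rw [LieHom.comp_apply, LieHom.id_apply] at h2
  rw [← h2]
  exact (lift ℂ (fun i : Fin b => (⟨of ℂ i, hS i⟩ : S)) y).2

/-- ad-stability under the generators implies ad-stability -/
theorem lie_mem_of_gen {b : ℕ} (T : ℕ → Submodule ℂ (FL b)) (hT : Antitone T)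
    (h : ∀ n i, ∀ x ∈ T n, ⁅(of ℂ i : FL b), x⁆ ∈ T (n + 1)) (n : ℕ) (y x : FL b) (hx : x ∈ T n) :
    ⁅y, x⁆ ∈ T (n + 1) := by
  let S : LieSubalgebra ℂ (FL b) :=
    { carrier := {y | ∀ n, ∀ x ∈ T n, ⁅y, x⁆ ∈ T (n + 1)}
      add_mem' := by
        intro y z hy hz n x hx
        rw [add_lie]
        exact (T (n + 1)).add_mem (hy n x hx) (hz n x hx)
      zero_mem' := by
        intro n x hx
        rw [zero_lie]
        exact (T (n + 1)).zero_mem
      smul_mem' := by
        intro c y hy n x hx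
        rw [smul_lie]
        exact (T (n + 1)).smul_mem c (hy n x hx)
      lie_mem' := by
        intro y z hy hz n x hx
        rw [lie_lie]
        exact (T (n + 1)).sub_mem (hT (Nat.le_succ _) (hy _ _ (hz n x hx)))
          (hT (Nat.le_succ _) (hz _ _ (hy n x hx))) }
  have hy : y ∈ S := mem_of_gen S (fun i n x hx => h n i x hx) y
  exact hy n x hx

theorem lie_mem_of_gen' {b : ℕ} (T : Submodule ℂ (FL b))
    (h : ∀ i, ∀ x ∈ T, ⁅(of ℂ i : FL b), x⁆ ∈ T) (y x : FL b) (hx : x ∈ T) : ⁅y, x⁆ ∈ T :=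
  lie_mem_of_gen (fun _ => T) (fun _ _ _ => le_rfl) (fun _ i x hx => h i x hx) 0 y x hx

theorem lie_gen_Wt {b : ℕ} (d : Fin b → ℕ) (w : ℕ) (i : Fin b) (x : FL b) (hx : x ∈ Wt d w) :
    ⁅(of ℂ i : FL b), x⁆ ∈ Wt d (d i + w) := by
  unfold Wt at hx
  induction hx using Submodule.span_induction with
  | mem x hx =>
    obtain ⟨l, hl, rfl⟩ := hx
    by_cases h0 : l = []
    · subst h0
      rw [rn, lie_zero]
      exact Submodule.zero_mem _
    · rw [lie_rn i l h0]
      apply Submodule.subset_span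
      refine ⟨i :: l, ?_, rfl⟩
      rw [wt, List.map_cons, List.sum_cons]
      rw [wt] at hl
      rw [hl]
  | zero => rw [lie_zero]; exact Submodule.zero_mem _
  | add x y _ _ hx hy => rw [lie_add]; exact Submodule.add_mem _ hx hy
  | smul c x _ hx => rw [lie_smul]; exact Submodule.smul_mem _ c hx

theorem iSup_Wt {b : ℕ} (d : Fin b → ℕ) : ⨆ w, Wt d w = ⊤ := by
  have hgen : ∀ i, ∀ x ∈ ⨆ w, Wt d w, ⁅(of ℂ i : FL b), x⁆ ∈ ⨆ w, Wt d w := by
    intro i x hx
    induction hx using Submodule.iSup_induction' with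
    | mem w x hx => exact Submodule.mem_iSup_of_mem (d i + w) (lie_gen_Wt d w i x hx)
    | zero => rw [lie_zero]; exact Submodule.zero_mem _
    | add x y _ _ hx hy => rw [lie_add]; exact Submodule.add_mem _ hx hy
  rw [eq_top_iff]
  intro y _
  let S : LieSubalgebra ℂ (FL b) :=
    { (⨆ w, Wt d w : Submodule ℂ (FL b)) with
      lie_mem' := by
        intro y z _ hz
        exact lie_mem_of_gen' _ hgen y z hz }
  have hy : y ∈ S := by
    apply mem_of_gen S
    intro i
    change (of ℂ i : FL b) ∈ (⨆ w, Wt d w : Submodule ℂ (FL b))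
    apply Submodule.mem_iSup_of_mem (d i)
    apply Submodule.subset_span
    refine ⟨[i], ?_, ?_⟩
    · simp [wt]
    · rw [rn]
  exact hy

theorem length_le_wt {b : ℕ} (d : Fin b → ℕ) (hd : ∀ i, 1 ≤ d i) (l : List (Fin b)) :
    l.length ≤ wt d l := by
  induction l with
  | nil => simp [wt]
  | cons i l ih =>
    rw [wt] at ih ⊢
    rw [List.map_cons, List.sum_cons, List.length_cons]
    have := hd i
    omega

theorem wt_le_length {b : ℕ} (d : Fin b → ℕ) (hd : ∀ i, d i ≤ 2) (l : List (Fin b)) :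
    wt d l ≤ 2 * l.length := by
  induction l with
  | nil => simp [wt]
  | cons i l ih =>
    rw [wt] at ih ⊢
    rw [List.map_cons, List.sum_cons, List.length_cons]
    have := hd i
    omega

theorem lcs_le {b : ℕ} (d : Fin b → ℕ) (hd : ∀ i, 1 ≤ d i) (n : ℕ) :
    (LieModule.lowerCentralSeries ℂ (FL b) (FL b) n).toSubmodule ≤
      ⨆ w, ⨆ (_ : n + 1 ≤ w), Wt d w := by
  have hT : Antitone (fun n : ℕ => (⨆ w, ⨆ (_ : n + 1 ≤ w), Wt d w : Submodule ℂ (FL b))) := by
    intro m n hmn
    apply iSup_le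
    intro w
    apply iSup_le
    intro hw
    exact le_iSup₂_of_le w (by omega) le_rfl
  have hgen : ∀ n i, ∀ x ∈ (⨆ w, ⨆ (_ : n + 1 ≤ w), Wt d w : Submodule ℂ (FL b)),
      ⁅(of ℂ i : FL b), x⁆ ∈ (⨆ w, ⨆ (_ : n + 1 + 1 ≤ w), Wt d w : Submodule ℂ (FL b)) := by
    intro n i x hx
    induction hx using Submodule.iSup_induction' with
    | mem w x hx =>
      by_cases hw : n + 1 ≤ w
      · rw [iSup_pos hw] at hx
        have h1 := hd i
        exact Submodule.mem_iSup_of_mem (d i + w)
          (Submodule.mem_iSup_of_mem (by omega) (lie_gen_Wt d w i x hx))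
      · rw [iSup_neg hw, Submodule.mem_bot] at hx
        rw [hx, lie_zero]
        exact Submodule.zero_mem _
    | zero => rw [lie_zero]; exact Submodule.zero_mem _
    | add x y _ _ hx hy => rw [lie_add]; exact Submodule.add_mem _ hx hy
  induction n with
  | zero =>
    have h0 : (⊤ : Submodule ℂ (FL b)) ≤ ⨆ w, ⨆ (_ : 0 + 1 ≤ w), Wt d w := by
      rw [← iSup_Wt d]
      apply iSup_le
      intro w
      rcases Nat.eq_zero_or_pos w with rfl | hw
      · rw [Wt, Submodule.span_le]
        rintro x ⟨l, hl, rfl⟩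
        have h1 := length_le_wt d hd l
        have h2 : l = [] := List.eq_nil_of_length_eq_zero (by omega)
        subst h2
        rw [rn]
        exact Submodule.zero_mem _
      · exact le_iSup₂_of_le w (by omega) le_rfl
    exact le_top.trans h0
  | succ n ih =>
    rw [LieModule.lowerCentralSeries_succ, LieSubmodule.lieIdeal_oper_eq_linear_span',
      Submodule.span_le]
    rintro m ⟨y, _, x, hx, rfl⟩
    exact lie_mem_of_gen _ hT hgen n y x (ih hx)

theorem rn_mem_lcs {b : ℕ} (l : List (Fin b)) :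
    rn l ∈ LieModule.lowerCentralSeries ℂ (FL b) (FL b) (l.length - 1) := by
  induction l with
  | nil =>
    rw [rn]
    exact LieSubmodule.zero_mem _
  | cons i l ih =>
    cases l with
    | nil => simp
    | cons j l =>
      rw [rn]
      have h1 : (i :: j :: l).length - 1 = ((j :: l).length - 1) + 1 := by simp
      rw [h1, LieModule.lowerCentralSeries_succ]
      exact LieSubmodule.lie_mem_lie (LieSubmodule.mem_top _) ih

theorem Wt_le_lcs {b : ℕ} (d : Fin b → ℕ) (hd : ∀ i, d i ≤ 2) (n w : ℕ) (hw : 2 * n < w) :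
    Wt d w ≤ (LieModule.lowerCentralSeries ℂ (FL b) (FL b) n).toSubmodule := by
  rw [Wt, Submodule.span_le]
  rintro x ⟨l, hl, rfl⟩
  have h1 := wt_le_length d hd l
  exact LieModule.antitone_lowerCentralSeries ℂ (FL b) (FL b) (by omega : n ≤ l.length - 1)
    (rn_mem_lcs l)

theorem finite_words {b : ℕ} (d : Fin b → ℕ) (hd : ∀ i, 1 ≤ d i) (w : ℕ) :
    {l : List (Fin b) | wt d l ≤ w}.Finite := by
  apply (List.finite_length_le (Fin b) w).subset
  intro l hl
  exact (length_le_wt d hd l).trans hl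

end Pool.Agent.MP_9c903d.UB
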