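import Pool.Agent.Lib.MP_9c903d_ag.UB.Defs

/-!
# UBC-GrB: the weight spaces are independent
-/

namespace Pool.Agent.MP_9c903d.UB

open FreeLieAlgebra

private noncomputable def grbTau {b : ℕ} (d : Fin b → ℕ) : FL b →ₗ⁅ℂ⁆ FL b :=
  FreeLieAlgebra.lift ℂ (fun i => ((2 : ℂ) ^ d i) • (of ℂ i : FL b))

private theorem grbTau_of {b : ℕ} (d : Fin b → ℕ) (i : Fin b) :
    grbTau d (of ℂ i) = ((2 : ℂ) ^ d i) • (of ℂ i : FL b) := by
  unfold grbTau
  exact FreeLieAlgebra.lift_of_apply _ i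

private theorem grbTau_rn {b : ℕ} (d : Fin b → ℕ) :
    ∀ l : List (Fin b), grbTau d (rn l) = ((2 : ℂ) ^ wt d l) • rn l
  | [] => by simp [rn]
  | [i] => by
    have h : wt d [i] = d i := by simp [wt]
    rw [h]
    exact grbTau_of d i
  | i :: j :: l => by
    have ih := grbTau_rn d (j :: l)
    have h : wt d (i :: j :: l) = d i + wt d (j :: l) := by simp [wt]
    have hr : (rn (i :: j :: l) : FL b) = ⁅of ℂ i, rn (j :: l)⁆ := rfl
    rw [hr, LieHom.map_lie, ih, grbTau_of, h, smul_lie, lie_smul, smul_smul, pow_add]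

private theorem Wt_le_eigen {b : ℕ} (d : Fin b → ℕ) (w : ℕ) :
    Wt d w ≤ Module.End.eigenspace ((grbTau d : FL b →ₗ⁅ℂ⁆ FL b) : FL b →ₗ[ℂ] FL b) ((2 : ℂ) ^ w) := by
  unfold Wt
  rw [Submodule.span_le]
  rintro x ⟨l, hl, rfl⟩
  rw [SetLike.mem_coe, Module.End.mem_eigenspace_iff, ← hl]
  exact grbTau_rn d l

theorem Wt_indep {b : ℕ} (d : Fin b → ℕ) : iSupIndep (Wt d) := by
  have hinj : Function.Injective (fun w : ℕ => (2 : ℂ) ^ w) := by
    intro a c hac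
    have h1 : ((2 ^ a : ℕ) : ℂ) = ((2 ^ c : ℕ) : ℂ) := by
      push_cast
      exact hac
    exact Nat.pow_right_injective le_rfl (Nat.cast_injective h1)
  have h2 := (Module.End.eigenspaces_iSupIndep ((grbTau d : FL b →ₗ⁅ℂ⁆ FL b) : FL b →ₗ[ℂ] FL b)).comp hinj
  exact h2.mono (Wt_le_eigen d)

end Pool.Agent.MP_9c903d.UB
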