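import Pool.Agent.Lib.MP_9c903d_ag.UB.GrA
import Pool.Agent.Lib.MP_9c903d_ag.UB.GrB

/-!
# UBC-GrC: the ideal generated by homogeneous elements, weight by weight
-/

namespace Pool.Agent.MP_9c903d.UB

open FreeLieAlgebra

theorem idl_eq {b : ℕ} {J : Type*} (r : J → FL b) :
    (idl r).toSubmodule =
      Submodule.span ℂ (Set.range fun p : List (Fin b) × J => app p.1 (r p.2)) := by
  obtain ⟨P, hP⟩ : ∃ P : Submodule ℂ (FL b), P = Submodule.span ℂ (Set.range fun p : List (Fin b) × J => app p.1 (r p.2)) := ⟨_, rfl⟩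
  have hgen : ∀ i, ∀ x ∈ P, ⁅(of ℂ i : FL b), x⁆ ∈ P := by
    intro i x hx
    rw [hP] at hx ⊢
    refine Submodule.span_induction ?_ ?_ ?_ ?_ hx
    · rintro _ ⟨⟨u, j⟩, rfl⟩
      exact Submodule.subset_span ⟨(i :: u, j), rfl⟩
    · rw [lie_zero]
      exact Submodule.zero_mem _
    · intro x y _ _ hx hy
      rw [lie_add]
      exact Submodule.add_mem _ hx hy
    · intro a x _ hx
      rw [lie_smul]
      exact Submodule.smul_mem _ _ hx
  rw [← hP]
  apply le_antisymm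
  · obtain ⟨N, hN⟩ : ∃ N : LieSubmodule ℂ (FL b) (FL b), N.toSubmodule = P :=
      ⟨{ P with lie_mem := fun {y x} hx => lie_mem_of_gen' P hgen y x hx }, rfl⟩
    have h : idl r ≤ N := by
      refine LieSubmodule.lieSpan_le.2 ?_
      rintro _ ⟨j, rfl⟩
      show r j ∈ N.toSubmodule
      rw [hN, hP]
      exact Submodule.subset_span ⟨([], j), rfl⟩
    rw [← hN]
    exact h
  · rw [hP, Submodule.span_le]
    rintro _ ⟨⟨u, j⟩, rfl⟩
    show app u (r j) ∈ idl r
    induction u with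
    | nil => exact LieSubmodule.subset_lieSpan ⟨j, rfl⟩
    | cons i u ih => exact LieSubmodule.lie_mem _ ih

private theorem lie_of_mem {b : ℕ} (d : Fin b → ℕ) (i : Fin b) (w : ℕ) (x : FL b) (hx : x ∈ Wt d w) :
    ⁅(of ℂ i : FL b), x⁆ ∈ Wt d (d i + w) := by
  refine Submodule.span_induction ?_ ?_ ?_ ?_ hx
  · rintro _ ⟨l, rfl, rfl⟩
    by_cases hl : l = []
    · rw [hl, rn, lie_zero]
      exact Submodule.zero_mem _
    · rw [lie_rn i l hl]
      exact Submodule.subset_span ⟨i :: l, by simp [wt], rfl⟩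
  · rw [lie_zero]
    exact Submodule.zero_mem _
  · intro x y _ _ hx hy
    rw [lie_add]
    exact Submodule.add_mem _ hx hy
  · intro a x _ hx
    rw [lie_smul]
    exact Submodule.smul_mem _ _ hx

theorem app_mem {b : ℕ} (d : Fin b → ℕ) (u : List (Fin b)) (v : ℕ) (x : FL b) (hx : x ∈ Wt d v) :
    app u x ∈ Wt d (wt d u + v) := by
  induction u with
  | nil => simpa [app, wt] using hx
  | cons i u ih =>
    have h := lie_of_mem d i _ _ ih
    have e : wt d (i :: u) + v = d i + (wt d u + v) := by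
      simp only [wt, List.map_cons, List.sum_cons]
      omega
    rw [e]
    exact h

theorem Wt_inf {b : ℕ} (d : Fin b → ℕ) {J : Type*} (r : J → FL b) (v : J → ℕ)
    (hr : ∀ j, r j ∈ Wt d (v j)) (w : ℕ) (x : FL b) (hx : x ∈ Wt d w) (hxI : x ∈ idl r) :
    x ∈ Submodule.span ℂ {y | ∃ (u : List (Fin b)) (j : J), wt d u + v j = w ∧ y = app u (r j)} := by
  obtain ⟨A, hA⟩ : ∃ A : ℕ → Submodule ℂ (FL b), A = fun w =>
      Submodule.span ℂ {y | ∃ (u : List (Fin b)) (j : J), wt d u + v j = w ∧ y = app u (r j)} := ⟨_, rfl⟩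
  have hAW : ∀ w, A w ≤ Wt d w := by
    intro w
    rw [hA]
    refine Submodule.span_le.2 ?_
    rintro _ ⟨u, j, rfl, rfl⟩
    exact app_mem d u (v j) (r j) (hr j)
  have hsup : x ∈ ⨆ w, A w := by
    have h1 : x ∈ (idl r).toSubmodule := hxI
    rw [idl_eq] at h1
    refine (Submodule.span_le.2 ?_) h1
    rintro _ ⟨⟨u, j⟩, rfl⟩
    refine (le_iSup A (wt d u + v j)) ?_
    rw [hA]
    exact Submodule.subset_span ⟨u, j, rfl, rfl⟩
  rw [iSup_split_single A w, Submodule.mem_sup] at hsup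
  obtain ⟨y, hy, z, hz, rfl⟩ := hsup
  have hz' : z ∈ ⨆ (w') (_ : w' ≠ w), Wt d w' := (iSup₂_mono fun w' _ => hAW w') hz
  have hzw : z ∈ Wt d w := by
    have h2 := Submodule.sub_mem _ hx (hAW w hy)
    rwa [add_sub_cancel_left] at h2
  have h3 := Submodule.disjoint_def.1 (Wt_indep d w) z hzw hz'
  rw [h3, add_zero]
  rw [hA] at hy
  exact hy

end Pool.Agent.MP_9c903d.UB
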