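import Pool.Agent.Lib.MP_9c903d_ag.UB.Fin
import Pool.Agent.Lib.MP_9c903d_ag.UB.Exp

/-!
# Groups with Malcev-Morgan data and the bound for their nilpotency class
-/

namespace Pool.Agent.MP_9c903d.UB

open FreeLieAlgebra

attribute [local instance 100] LieRing.ofAssociativeRing

/-- `G` has Malcev-Morgan data with `b` generators: a homomorphism `ρ` to `GL_n(ℂ)` whose kernel
consists of torsion elements, and a nilpotent Lie algebra `N` of `n × n` matrices which has a
Morgan presentation with `b` generators, such that every `ρ g` is `exp x = ∑_{i<n} x^i / i!` for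
some `x ∈ N` with `x^n = 0`. -/
def MorganData (b : ℕ) (G : Type*) [Group G] : Prop :=
  ∃ (n : ℕ) (ρ : G →* (Matrix (Fin n) (Fin n) ℂ)ˣ)
    (N : LieSubalgebra ℂ (Matrix (Fin n) (Fin n) ℂ)),
    LieRing.IsNilpotent N ∧ MorganPresented b N ∧
    (∀ g, ∃ x ∈ N, x ^ n = 0 ∧
      ((ρ g : (Matrix (Fin n) (Fin n) ℂ)ˣ) : Matrix (Fin n) (Fin n) ℂ) = expN n x) ∧
    ∀ g, ρ g = 1 → ∃ k, 0 < k ∧ g ^ k = 1

theorem torsion_of_bound {b C : ℕ}
    (hC : ∀ (L : Type) [LieRing L] [LieAlgebra ℂ L], MorganPresented b L → LieRing.IsNilpotent L →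
      LieModule.lowerCentralSeries ℂ L L C = ⊥)
    {G : Type*} [Group G] (h : MorganData b G) :
    ∀ g ∈ (⊤ : Subgroup G).lowerCentralSeries C, ∃ k, 0 < k ∧ g ^ k = 1 := by
  obtain ⟨n, ρ, N, hN, hP, hexp, hker⟩ := h
  intro g hg
  exact hker g (class_le C N ρ n hexp (hC N hP hN) g hg)

theorem class_of_bound {b C : ℕ}
    (hC : ∀ (L : Type) [LieRing L] [LieAlgebra ℂ L], MorganPresented b L → LieRing.IsNilpotent L →
      LieModule.lowerCentralSeries ℂ L L C = ⊥)
    {G : Type*} [Group G] (h : MorganData b G)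
    (htf : ∀ g : G, ∀ k : ℕ, 0 < k → g ^ k = 1 → g = 1) :
    Group.IsNilpotent G ∧ Group.nilpotencyClass G ≤ C := by
  have hbot : (⊤ : Subgroup G).lowerCentralSeries C = ⊥ := by
    rw [eq_bot_iff]
    intro g hg
    obtain ⟨k, hk, hgk⟩ := torsion_of_bound hC h g hg
    exact Subgroup.mem_bot.mpr (htf g k hk hgk)
  have hn : Group.IsNilpotent G := Subgroup.nilpotent_iff_lowerCentralSeries.mpr ⟨C, hbot⟩
  exact ⟨hn, Subgroup.lowerCentralSeries_eq_bot_iff_nilpotencyClass_le.mp hbot⟩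

end Pool.Agent.MP_9c903d.UB
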