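import Pool.Agent.Lib.MP_9c903d_ag.UB.GrA

/-!
# UBC-Par: every homogeneous set of relations is equivalent to one given by coefficients
-/

namespace Pool.Agent.MP_9c903d.UB

open FreeLieAlgebra

/-- a subspace of small dimension is spanned by a family with a given finite index set -/
private theorem par_family {E J : Type*} [AddCommGroup E] [Module ℂ E] [Fintype J] (R : Submodule ℂ E)
    [FiniteDimensional ℂ R] (h : Module.finrank ℂ R ≤ Fintype.card J) :
    ∃ g : J → E, Submodule.span ℂ (Set.range g) = R := by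
  classical
  let B := Module.finBasis ℂ R
  obtain ⟨e⟩ : Nonempty (Fin (Module.finrank ℂ R) ↪ J) :=
    Function.Embedding.nonempty_of_card_le (by rwa [Fintype.card_fin])
  refine ⟨Function.extend e (fun i => (B i : E)) 0, le_antisymm ?_ ?_⟩
  · rw [Submodule.span_le]
    rintro _ ⟨j, rfl⟩
    by_cases hj : ∃ i, e i = j
    · obtain ⟨i, rfl⟩ := hj
      rw [e.injective.extend_apply]
      exact (B i).2
    · rw [Function.extend_apply' _ _ _ hj]
      exact R.zero_mem
  · have h1 : R = Submodule.span ℂ (Set.range fun i => (B i : E)) := by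
      have h2 := congrArg (Submodule.map R.subtype) B.span_eq
      rw [Submodule.map_span, ← Set.range_comp, Submodule.map_top, Submodule.range_subtype] at h2
      exact h2.symm
    conv_lhs => rw [h1]
    rw [Submodule.span_le]
    rintro _ ⟨i, rfl⟩
    refine Submodule.subset_span ⟨e i, ?_⟩
    rw [e.injective.extend_apply]

/-- for `2 ≤ v ≤ 4` the homogeneous elements of weight `v` are spanned by the words of weight `v` -/
private theorem par_span {b : ℕ} (d : Fin b → ℕ) (v : ℕ) (h2 : 2 ≤ v) (h4 : v ≤ 4) :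
    Wt d v = Submodule.span ℂ (Set.range fun l : {l : Jw d // wt d l.1 = v} => rn l.1.1) := by
  unfold Wt
  congr 1
  ext x
  constructor
  · rintro ⟨l, hl, rfl⟩
    exact ⟨⟨⟨l, by omega, by omega⟩, hl⟩, rfl⟩
  · rintro ⟨⟨l, hl⟩, rfl⟩
    exact ⟨l.1, hl, rfl⟩

private theorem par_coef {b : ℕ} (d : Fin b → ℕ) [Fintype (Jw d)] (v : ℕ) (h2 : 2 ≤ v) (h4 : v ≤ 4) (x : FL b)
    (hx : x ∈ Wt d v) : ∃ c : Jw d → ℂ, x = ∑ l' : Jw d, if wt d l'.1 = v then c l' • rn l'.1 else 0 := by
  have h1 : Wt d v ≤ Submodule.span ℂ (Set.range fun l' : Jw d => if wt d l'.1 = v then (rn l'.1 : FL b) else 0) := by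
    rw [par_span d v h2 h4, Submodule.span_le]
    rintro _ ⟨⟨l, hl⟩, rfl⟩
    refine Submodule.subset_span ⟨l, ?_⟩
    change (if wt d l.1 = v then (rn l.1 : FL b) else 0) = rn l.1
    rw [if_pos hl]
  obtain ⟨c, hc⟩ := (Submodule.mem_span_range_iff_exists_fun ℂ).1 (h1 hx)
  refine ⟨c, ?_⟩
  rw [← hc]
  refine Finset.sum_congr rfl fun l _ => ?_
  rw [smul_ite, smul_zero]

theorem exists_par {b : ℕ} (d : Fin b → ℕ) (hd : ∀ i, 1 ≤ d i) [Fintype (Jw d)] (S : Set (FL b))
    (hS : ∀ s ∈ S, ∃ w, 2 ≤ w ∧ w ≤ 4 ∧ s ∈ Wt d w) :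
    ∃ a : Jw d × Jw d → ℂ, LieSubmodule.lieSpan ℂ (FL b) S = idl (rel a) := by
  classical
  -- the families `g v`
  have hg : ∀ v : ℕ, ∃ g : {l : Jw d // wt d l.1 = v} → FL b, 2 ≤ v → v ≤ 4 →
      Submodule.span ℂ (Set.range g) = Submodule.span ℂ (S ∩ (Wt d v : Set (FL b))) := by
    intro v
    by_cases hv : 2 ≤ v ∧ v ≤ 4
    · have hfd : FiniteDimensional ℂ (Wt d v) := by
        rw [par_span d v hv.1 hv.2]
        exact FiniteDimensional.span_of_finite ℂ (Set.finite_range _)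
      have hle : Submodule.span ℂ (S ∩ (Wt d v : Set (FL b))) ≤ Wt d v :=
        Submodule.span_le.2 Set.inter_subset_right
      have hfd' : FiniteDimensional ℂ (Submodule.span ℂ (S ∩ (Wt d v : Set (FL b)))) :=
        Submodule.finiteDimensional_of_le hle
      obtain ⟨g, hg⟩ := par_family (J := {l : Jw d // wt d l.1 = v})
        (Submodule.span ℂ (S ∩ (Wt d v : Set (FL b)))) (by
          refine (Submodule.finrank_mono hle).trans ?_
          rw [par_span d v hv.1 hv.2]
          exact finrank_range_le_card _)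
      exact ⟨g, fun _ _ => hg⟩
    · exact ⟨fun _ => 0, fun h1 h2 => absurd ⟨h1, h2⟩ hv⟩
  choose g hg using hg
  let G : Jw d → FL b := fun l => g (wt d l.1) ⟨l, rfl⟩
  have hGmem : ∀ l : Jw d, G l ∈ Submodule.span ℂ (S ∩ (Wt d (wt d l.1) : Set (FL b))) := by
    intro l
    rw [← hg _ l.2.1 l.2.2]
    exact Submodule.subset_span ⟨_, rfl⟩
  have hGWt : ∀ l : Jw d, G l ∈ Wt d (wt d l.1) := fun l =>
    (Submodule.span_le.2 Set.inter_subset_right : Submodule.span ℂ (S ∩ (Wt d (wt d l.1) : Set (FL b))) ≤ _) (hGmem l)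
  choose c hc using fun l : Jw d => par_coef d (wt d l.1) l.2.1 l.2.2 (G l) (hGWt l)
  refine ⟨fun p => c p.1 p.2, ?_⟩
  have hrel : rel (fun p : Jw d × Jw d => c p.1 p.2) = G := by
    funext l
    exact (hc l).symm
  unfold idl
  rw [hrel]
  refine le_antisymm ?_ ?_
  · rw [LieSubmodule.lieSpan_le]
    intro s hs
    obtain ⟨w, h2, h4, hw⟩ := hS s hs
    have h1 : s ∈ Submodule.span ℂ (Set.range (g w)) := by
      rw [hg w h2 h4]
      exact Submodule.subset_span ⟨hs, hw⟩
    have h3 : Submodule.span ℂ (Set.range (g w)) ≤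
        (LieSubmodule.lieSpan ℂ (FL b) (Set.range G)).toSubmodule := by
      rw [Submodule.span_le]
      rintro _ ⟨⟨l, rfl⟩, rfl⟩
      exact LieSubmodule.subset_lieSpan ⟨l, rfl⟩
    exact h3 h1
  · rw [LieSubmodule.lieSpan_le]
    rintro _ ⟨l, rfl⟩
    have h3 : Submodule.span ℂ (S ∩ (Wt d (wt d l.1) : Set (FL b))) ≤
        (LieSubmodule.lieSpan ℂ (FL b) S).toSubmodule :=
      Submodule.span_le.2 fun x hx => LieSubmodule.subset_lieSpan hx.1
    exact h3 (hGmem l)

end Pool.Agent.MP_9c903d.UB
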